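import Mathlib

/-! Project MD, part FAR: sums over the scales. -/

set_option autoImplicit false

open Finset

namespace Pool.Agent.W135.MD

section seq

variable {g : ℕ → ℝ} (hg : ∀ j, 0 ≤ g j)

/-- weighted sums -/
noncomputable def WW (g : ℕ → ℝ) (n : ℕ) : ℝ := ∑ j ∈ range n, 2 ^ j * g j

/-- sums -/
noncomputable def GG (g : ℕ → ℝ) (n : ℕ) : ℝ := ∑ j ∈ range n, g j

include hg

theorem WW_nonneg (n : ℕ) : 0 ≤ WW g n := sum_nonneg fun j _ => mul_nonneg (by positivity) (hg j)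

theorem GG_nonneg (n : ℕ) : 0 ≤ GG g n := sum_nonneg fun j _ => hg j

theorem WW_mono {n k : ℕ} (h : n ≤ k) : WW g n ≤ WW g k :=
  sum_le_sum_of_subset_of_nonneg (range_mono h) fun j _ _ => mul_nonneg (by positivity) (hg j)

theorem GG_mono {n k : ℕ} (h : n ≤ k) : GG g n ≤ GG g k :=
  sum_le_sum_of_subset_of_nonneg (range_mono h) fun j _ _ => hg j

theorem le_GG {j n : ℕ} (h : j < n) : g j ≤ GG g n :=
  single_le_sum (f := g) (fun i _ => hg i) (mem_range.2 h)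

theorem WW_le (n : ℕ) : WW g n ≤ 2 ^ n * GG g n := by
  unfold WW GG
  rw [mul_sum]
  refine sum_le_sum fun j hj => ?_
  have h1 : (2:ℝ) ^ j ≤ 2 ^ n := pow_le_pow_right₀ (by norm_num) (mem_range.1 hj).le
  exact mul_le_mul_of_nonneg_right h1 (hg j)

theorem cs (n : ℕ) : (∑ j ∈ range n, 2 ^ j * √(g j)) ^ 2 ≤ 2 ^ n * WW g n := by
  have h1 := sum_sq_le_sum_mul_sum_of_sq_le_mul (range n) (r := fun j => 2 ^ j * √(g j))
    (f := fun j => (2:ℝ) ^ j) (g := fun j => 2 ^ j * g j) (fun j _ => by positivity)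
    (fun j _ => mul_nonneg (by positivity) (hg j)) (fun j _ => by
      rw [mul_pow, Real.sq_sqrt (hg j)]; ring_nf; exact le_refl _)
  refine h1.trans ?_
  have h2 : ∑ j ∈ range n, (2:ℝ) ^ j ≤ 2 ^ n := by
    rw [geom_sum_eq (by norm_num)]
    have : (0:ℝ) < 2 ^ n := by positivity
    norm_num
  exact mul_le_mul_of_nonneg_right h2 (WW_nonneg hg n)

theorem TT_le (n : ℕ) : ∑ k ∈ range n, (1 / 2 : ℝ) ^ k * WW g (k + 4) ≤ 32 * GG g (n + 3) := by
  have key : ∀ n : ℕ, ∑ k ∈ range n, (1 / 2 : ℝ) ^ k * WW g (k + 4)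
      + 2 * (1 / 2 : ℝ) ^ n * WW g (n + 3) ≤ 32 * GG g (n + 3) := by
    intro n
    induction n with
    | zero =>
      have := WW_le hg 3
      have h2 := GG_nonneg hg 3
      simp only [range_zero, sum_empty, pow_zero]
      norm_num at *
      linarith
    | succ n ih =>
      rw [sum_range_succ]
      have e1 : WW g (n + 1 + 3) = WW g (n + 3) + 2 ^ (n + 3) * g (n + 3) := by
        unfold WW; rw [show n + 1 + 3 = (n + 3) + 1 by ring, sum_range_succ]
      have e2 : GG g (n + 1 + 3) = GG g (n + 3) + g (n + 3) := by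
        unfold GG; rw [show n + 1 + 3 = (n + 3) + 1 by ring, sum_range_succ]
      rw [e1, e2]
      have h1 : (1 / 2 : ℝ) ^ n * 2 ^ n = 1 := by rw [← mul_pow]; norm_num
      have h3 : (1 / 2 : ℝ) ^ n * (2 ^ (n + 3) * g (n + 3)) = 8 * g (n + 3) := by
        rw [pow_add]
        calc (1 / 2 : ℝ) ^ n * (2 ^ n * 2 ^ 3 * g (n + 3))
            = ((1 / 2 : ℝ) ^ n * 2 ^ n) * (8 * g (n + 3)) := by ring
          _ = _ := by rw [h1, one_mul]
      have h4 := hg (n + 3)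
      have h5 : (1 / 2 : ℝ) ^ (n + 1) = (1 / 2) ^ n * (1 / 2) := pow_succ _ _
      rw [h5]
      calc ∑ x ∈ range n, (1 / 2 : ℝ) ^ x * WW g (x + 4)
            + (1 / 2) ^ n * (WW g (n + 3) + 2 ^ (n + 3) * g (n + 3))
            + 2 * ((1 / 2) ^ n * (1 / 2)) * (WW g (n + 3) + 2 ^ (n + 3) * g (n + 3))
          = (∑ x ∈ range n, (1 / 2 : ℝ) ^ x * WW g (x + 4) + 2 * (1 / 2) ^ n * WW g (n + 3))
            + 2 * ((1 / 2 : ℝ) ^ n * (2 ^ (n + 3) * g (n + 3))) := by ring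
        _ ≤ 32 * GG g (n + 3) + 2 * (8 * g (n + 3)) := by rw [h3]; linarith
        _ ≤ 32 * (GG g (n + 3) + g (n + 3)) := by linarith
  have h1 := key n
  have h2 : 0 ≤ 2 * (1 / 2 : ℝ) ^ n * WW g (n + 3) :=
    mul_nonneg (by positivity) (WW_nonneg hg _)
  linarith

end seq

end Pool.Agent.W135.MD
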