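import Pool.Agent.W135.MD.FarA
import Pool.Agent.W135.MD.FarB

/-! Project MD, part FAR: the far pressure. -/

set_option autoImplicit false

open MeasureTheory Set Metric
open scoped ContDiff

namespace Pool.Agent.W135.MD

open H459R3.NS W221.NS

theorem int_ball_cont {f : V → ℝ} (hf : Continuous f) (a : V) (ρ : ℝ) :
    IntegrableOn f (ball a ρ) :=
  (hf.continuousOn.integrableOn_compact (isCompact_closedBall a ρ)).mono_set ball_subset_closedBall

theorem int_sq_sub {f g : V → ℝ} (hf : Continuous f) (hg : Continuous g) (a : V) (ρ : ℝ) :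
    ∫ z in ball a ρ, (f z - g z) ^ 2
      ≤ 2 * (∫ z in ball a ρ, f z ^ 2) + 2 * ∫ z in ball a ρ, g z ^ 2 := by
  have h1 := int_ball_cont (f := fun z => 2 * f z ^ 2) (by fun_prop) a ρ
  have h2 := int_ball_cont (f := fun z => 2 * g z ^ 2) (by fun_prop) a ρ
  have h3 := int_ball_cont (f := fun z => (f z - g z) ^ 2) (by fun_prop) a ρ
  rw [← integral_const_mul, ← integral_const_mul, ← integral_add h1 h2]
  refine integral_mono h3 (h1.add h2) fun z => ?_
  show (f z - g z) ^ 2 ≤ 2 * f z ^ 2 + 2 * g z ^ 2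
  nlinarith [sq_nonneg (f z + g z)]

theorem int_sq_mono {f : V → ℝ} (hf : Continuous f) (a : V) {ρ ρ' : ℝ} (h : ρ ≤ ρ') :
    ∫ z in ball a ρ, f z ^ 2 ≤ ∫ z in ball a ρ', f z ^ 2 :=
  setIntegral_mono_set (int_ball_cont (f := fun z => f z ^ 2) (by fun_prop) a ρ')
    (Filter.Eventually.of_forall fun _ => sq_nonneg _)
    (LE.le.eventuallyLE (ball_subset_ball h))

theorem rr_pos (m : ℕ) : 0 < rr m := by unfold rr; positivity

theorem rr_eq (m : ℕ) : rr m = (2 ^ m)⁻¹ := by unfold rr; rw [one_div, inv_pow]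

theorem g_eq {u v : V → V} {x c : V} {m : ℕ} (hu : ContDiff ℝ ∞ u)
    (hv : ∀ z i, v z i = rr m * (u (x + rr m • z) i - c i)) (j : ℕ) :
    B2 0 (2 ^ j) v / 8 ^ j = 8 * avg u x (2 ^ j / 2 ^ m) / 16 ^ m := by
  have hr := rr_pos m
  have h1 : B2 0 (2 ^ j) v = rr m ^ 4 * ((rr m ^ 3)⁻¹ * ∫ y in ball x (rr m * 2 ^ j), gsq u y) := by
    unfold B2
    simp_rw [gsq_scale hu hv]
    rw [integral_const_mul, int_ball_scale _ x hr]
  have h2 : rr m * 2 ^ j = 2 ^ j / 2 ^ m := by rw [rr_eq]; field_simp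
  rw [h1, h2]
  unfold avg
  rw [rr_eq]
  set I := ∫ y in ball x (2 ^ j / 2 ^ m), gsq u y
  have e : (16:ℝ) ^ m = (2 ^ m) ^ 4 := by rw [← pow_mul, mul_comm m 4, pow_mul]; norm_num
  have e8 : (8:ℝ) ^ j = (2 ^ j) ^ 3 := by rw [← pow_mul, mul_comm j 3, pow_mul]; norm_num
  rw [e, e8]
  have hA : (2:ℝ) ^ m ≠ 0 := by positivity
  have hB : (2:ℝ) ^ j ≠ 0 := by positivity
  field_simp
  ring

theorem gsq_nonneg (u : V → V) (x : V) : 0 ≤ gsq u x :=
  Finset.sum_nonneg fun _ _ => Finset.sum_nonneg fun _ _ => sq_nonneg _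

theorem avg_nonneg (u : V → V) (x : V) {ρ : ℝ} (hρ : 0 ≤ ρ) : 0 ≤ avg u x ρ :=
  div_nonneg (integral_nonneg fun y => gsq_nonneg u y) (by positivity)

theorem enst_nonneg (u : V → V) : 0 ≤ enstrophy u :=
  Finset.sum_nonneg fun _ _ => Finset.sum_nonneg fun _ _ => integral_nonneg fun _ => sq_nonneg _

theorem t_FAR (hG : S_GROW) (hR : S_RIESZ) (hA : S_HARM) (hT : S_TPRESS) : S_FAR := by
  obtain ⟨CG, hCG, hG⟩ := hG
  obtain ⟨CR, hCR, hR⟩ := hR
  obtain ⟨CH, hCH, hA⟩ := hA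
  obtain ⟨CT, hCT, hT⟩ := hT
  set K1 : ℝ := 512 * CR * CG ^ 2 with hK1
  set K2 : ℝ := 66 * CH * K1 + 1 with hK2
  set K3 : ℝ := 2 ^ 22 * CH * CT + 8192 * CH * K1 + 1 with hK3
  have hK1p : 0 < K1 := by positivity
  have hK2p : 0 < K2 := by positivity
  have hK3p : 0 < K3 := by positivity
  refine ⟨K1 * 2 ^ 19 + 1 + K3 + 256 * K2 + 64, by positivity, ?_⟩
  intro u p hu hp hdiv hlap m hm x c l v q hv hq hmean
  have hus : ContDiff ℝ ∞ u := hu.1
  have hvs : ContDiff ℝ ∞ v := smooth_v hus hv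
  have hr := rr_pos m
  have hreq := rr_eq m
  set E : ℝ := enstrophy u with hE
  have hE0 : 0 ≤ E := enst_nonneg u
  set F : ℝ := FF m u x with hF
  -- the sequence
  set g : ℕ → ℝ := fun j => B2 0 (2 ^ j) v / 8 ^ j with hgdef
  have hgeq : ∀ j, g j = 8 * avg u x (2 ^ j / 2 ^ m) / 16 ^ m := g_eq hus hv
  have hg0 : ∀ j, 0 ≤ g j := fun j => by
    rw [hgeq]
    have := avg_nonneg u x (ρ := 2 ^ j / 2 ^ m) (by positivity)
    positivity
  have hFE : E / 16 ^ m ≤ F := by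
    rw [hF]; unfold FF
    have : 0 ≤ ∑ k ∈ Finset.range m, avg u x (2 ^ k / 2 ^ m) :=
      Finset.sum_nonneg fun k _ => avg_nonneg u x (by positivity)
    gcongr
    linarith
  have hF0 : 0 ≤ F := le_trans (by positivity) hFE
  have hGm : GG g m ≤ 8 * F := by
    have h1 : GG g m = 8 * ((∑ k ∈ Finset.range m, avg u x (2 ^ k / 2 ^ m)) / 16 ^ m) := by
      unfold GG
      simp_rw [hgeq]
      rw [Finset.sum_div, Finset.mul_sum]
      exact Finset.sum_congr rfl fun k _ => by ring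
    rw [h1, hF]
    unfold FF
    gcongr
    linarith
  have hG0 : 0 ≤ GG g m := GG_nonneg hg0 m
  -- L4 bounds
  have hL4 : ∀ k : ℕ, L4 0 (2 ^ k) v ≤ 16 * CG ^ 2 * 32 ^ k * WW g (k + 2) ^ 2 := by
    intro k
    have h1 := hG v hvs hmean k
    have h2 := cs hg0 (k + 2)
    have h0 : 0 ≤ L4 0 (2 ^ k) v := integral_nonneg fun _ => sq_nonneg _
    have h3 : √(L4 0 (2 ^ k) v) ≤ CG * √(8 ^ k) * (2 ^ (k + 2) * WW g (k + 2)) :=
      h1.trans (mul_le_mul_of_nonneg_left h2 (by positivity))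
    have h4 : √(L4 0 (2 ^ k) v) ^ 2 ≤ (CG * √(8 ^ k) * (2 ^ (k + 2) * WW g (k + 2))) ^ 2 :=
      pow_le_pow_left₀ (Real.sqrt_nonneg _) h3 2
    rw [Real.sq_sqrt h0, mul_pow, mul_pow, Real.sq_sqrt (by positivity), mul_pow] at h4
    refine h4.trans (le_of_eq ?_)
    have e1 : ((2:ℝ) ^ (k + 2)) ^ 2 = 16 * 4 ^ k := by
      rw [← pow_mul, show (k + 2) * 2 = 2 * k + 4 by ring, pow_add, pow_mul]; norm_num; ring
    have e2 : (32:ℝ) ^ k = 8 ^ k * 4 ^ k := by rw [← mul_pow]; norm_num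
    rw [e1, e2]
    ring
  -- the local potentials
  have hPex : ∀ k : ℕ, ∃ P : V → ℝ, ContDiff ℝ ∞ P ∧
      (∀ z ∈ ball (0 : V) (2 ^ k), -lap P z = ddq v z) ∧
      ∫ z in ball (0 : V) (2 ^ (k + 1)), P z ^ 2 ≤ K1 * 32 ^ k * WW g (k + 3) ^ 2 := by
    intro k
    obtain ⟨P, hP1, hP2, hP3⟩ := hR v hvs 0 (2 ^ (k + 1)) (by positivity)
    refine ⟨P, hP1, ?_, ?_⟩
    · intro z hz
      apply hP2
      rw [pow_succ, mul_div_cancel_right₀ _ (two_ne_zero)]
      exact hz
    · refine hP3.trans ((mul_le_mul_of_nonneg_left (hL4 (k + 1)) hCR.le).trans (le_of_eq ?_))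
      rw [hK1, pow_succ]
      ring
  choose P hPs hPl hPi using hPex
  have hPc : ∀ k, Continuous (P k) := fun k => (hPs k).continuous
  -- differences
  have hone : ∀ (k : ℕ), 1 ≤ k → ∀ z ∈ ball (0 : V) 1, z ∈ ball (0 : V) (2 ^ k / 2) := by
    intro k hk z hz
    refine ball_subset_ball ?_ hz
    have : (2:ℝ) ^ 1 ≤ 2 ^ k := pow_le_pow_right₀ (by norm_num) hk
    linarith
  have h7 : ∀ k : ℕ, ((2:ℝ) ^ k) ^ 7 = 128 ^ k := by
    intro k; rw [← pow_mul, mul_comm, pow_mul]; norm_num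
  have hD : ∀ k : ℕ, 1 ≤ k → ∀ z ∈ ball (0 : V) 1, ∀ i j,
      |pd i (pd j (P k)) z - pd i (pd j (P (k + 1))) z| ≤ K2 * ((1 / 2) ^ k * WW g (k + 4)) := by
    intro k hk z hz i j
    have hs : ContDiff ℝ ∞ (fun z => P k z - P (k + 1) z) := (hPs k).sub (hPs (k + 1))
    have hh : ∀ z ∈ ball (0 : V) (2 ^ k), lap (fun z => P k z - P (k + 1) z) z = 0 := by
      intro z hz
      rw [lap_sub (hPs k) (hPs (k + 1))]
      have h1 := hPl k z hz
      have h2 := hPl (k + 1) z (ball_subset_ball (by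
        rw [pow_succ]; linarith [show (0:ℝ) < 2 ^ k by positivity]) hz)
      linarith
    have h1 := (hA (fun z => P k z - P (k + 1) z) hs 0 (2 ^ k) (by positivity) hh z
      (hone k hk z hz) i).2 j
    rw [pd2_sub (hPs k) (hPs (k + 1)), h7] at h1
    have h2 := int_sq_sub (hPc k) (hPc (k + 1)) 0 (2 ^ k)
    have h3 : ∫ z in ball (0 : V) (2 ^ k), P k z ^ 2 ≤ K1 * 32 ^ k * WW g (k + 4) ^ 2 := by
      refine (int_sq_mono (hPc k) 0 (pow_le_pow_right₀ (by norm_num) (Nat.le_succ k))).trans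
        ((hPi k).trans ?_)
      have := WW_mono hg0 (show k + 3 ≤ k + 4 by omega)
      have := WW_nonneg hg0 (k + 3)
      gcongr
    have h4 : ∫ z in ball (0 : V) (2 ^ k), P (k + 1) z ^ 2
        ≤ K1 * 32 ^ (k + 1) * WW g (k + 4) ^ 2 :=
      (int_sq_mono (hPc (k + 1)) 0 (pow_le_pow_right₀ (by norm_num) (by omega))).trans
        (hPi (k + 1))
    have h5 : (pd i (pd j (P k)) z - pd i (pd j (P (k + 1))) z) ^ 2 ≤
        (K2 * ((1 / 2) ^ k * WW g (k + 4))) ^ 2 := by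
      calc (pd i (pd j (P k)) z - pd i (pd j (P (k + 1))) z) ^ 2
          ≤ CH * (128 ^ k)⁻¹ * ∫ z in ball (0 : V) (2 ^ k), (P k z - P (k + 1) z) ^ 2 := h1
        _ ≤ CH * (128 ^ k)⁻¹ * (66 * K1 * 32 ^ k * WW g (k + 4) ^ 2) := by
            apply mul_le_mul_of_nonneg_left _ (by positivity)
            rw [pow_succ] at h4
            linarith
        _ = 66 * CH * K1 * (((1 / 2) ^ k) ^ 2 * WW g (k + 4) ^ 2) := by
            have e1 : ((1 / 2 : ℝ) ^ k) ^ 2 = (4 ^ k)⁻¹ := by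
              rw [← pow_mul, mul_comm k 2, pow_mul, ← inv_pow]; norm_num
            have e2 : (128 : ℝ) ^ k = 32 ^ k * 4 ^ k := by rw [← mul_pow]; norm_num
            rw [e1, e2]
            field_simp
        _ ≤ K2 ^ 2 * (((1 / 2) ^ k) ^ 2 * WW g (k + 4) ^ 2) := by
            apply mul_le_mul_of_nonneg_right _ (by positivity)
            have : 0 < 66 * CH * K1 := by positivity
            rw [hK2]
            nlinarith
        _ = _ := by ring
    have h6 : 0 ≤ K2 * ((1 / 2) ^ k * WW g (k + 4)) :=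
      mul_nonneg hK2p.le (mul_nonneg (by positivity) (WW_nonneg hg0 _))
    exact abs_le_of_sq_le_sq h5 h6
  -- the last piece
  obtain ⟨n, rfl⟩ : ∃ n, m = n + 4 := ⟨m - 4, by omega⟩
  set r : ℝ := rr (n + 4) with hrdef
  set pb : ℝ := ∫ y in cube, p y with hpb
  have hps : ContDiff ℝ ∞ p := hp.smooth
  have hpsub : ContDiff ℝ ∞ (fun z => p z - pb) := hps.sub contDiff_const
  set qt : V → ℝ := fun z => r ^ 2 * (p (x + r • z) - pb) with hqt
  have hqts : ContDiff ℝ ∞ qt :=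
    contDiff_const.mul (sm_comp (f := fun z => p z - pb) hpsub x r)
  have hppb : ∀ i j z, pd i (pd j (fun z => p z - pb)) z = pd i (pd j p) z := by
    intro i j z
    have h1 : ContDiff ℝ ∞ (fun _ : V => pb) := contDiff_const
    rw [pd2_sub hps h1]
    have : pd j (fun _ : V => pb) = fun _ => 0 := by funext y; exact pd_const' _ _ _
    rw [this, pd_const', sub_zero]
  have hqt2 : ∀ i j z, pd i (pd j qt) z = r ^ 4 * pd i (pd j p) (x + r • z) := by
    intro i j z
    rw [hqt, pd2_cmul (sm_comp (f := fun z => p z - pb) hpsub x r),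
      pd2_aff (f := fun z => p z - pb) hpsub, hppb]
    ring
  have hqtl : ∀ z, -lap qt z = ddq v z := by
    intro z
    rw [ddq_scale hus hdiv hv, ← hlap]
    unfold lap
    simp_rw [hqt2, ← Finset.mul_sum]
    ring
  have hqs : ∀ i j z, pd i (pd j q) z = r ^ 4 * pd i (pd j p) (x + r • z) := by
    intro i j z
    have e1 : q = fun z => r ^ 2 * p (x + r • z) + ∑ i, l i * z i := by funext z; exact hq z
    have s1 : ContDiff ℝ ∞ (fun z => r ^ 2 * p (x + r • z)) :=
      contDiff_const.mul (sm_comp hps x r)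
    have s2 : ContDiff ℝ ∞ (fun z : V => ∑ i, l i * z i) := by fun_prop
    rw [e1, pd2_add s1 s2, pd2_lin, pd2_cmul (sm_comp hps x r), pd2_aff hps]
    ring
  have hqsm : ContDiff ℝ ∞ q := by
    have e1 : q = fun z => r ^ 2 * p (x + r • z) + ∑ i, l i * z i := by funext z; exact hq z
    have s1 : ContDiff ℝ ∞ (fun z => r ^ 2 * p (x + r • z)) :=
      contDiff_const.mul (sm_comp hps x r)
    have s2 : ContDiff ℝ ∞ (fun z : V => ∑ i, l i * z i) := by fun_prop
    rw [e1]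
    exact s1.add s2
  -- integral of qt ^ 2
  have hqti : ∫ z in ball (0 : V) (2 ^ (n + 1)), qt z ^ 2 ≤ r * (CT * E ^ 2) := by
    have e1 : ∀ z, qt z ^ 2 = r ^ 4 * (fun y => (p y - pb) ^ 2) (x + r • z) := by
      intro z; simp only [hqt]; ring
    simp_rw [e1]
    rw [integral_const_mul, int_ball_scale (fun y => (p y - pb) ^ 2) x hr]
    have e2 : r * 2 ^ (n + 1) = 1 / 8 := by
      rw [hreq]
      rw [show n + 4 = (n + 1) + 3 by ring, pow_add]
      have : (2:ℝ) ^ (n + 1) ≠ 0 := by positivity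
      field_simp
      norm_num
    rw [e2]
    have hcont : Continuous (fun y => (p y - pb) ^ 2) := by
      have := hps.continuous
      fun_prop
    have h1 := ball_le_cube hcont (fun i y => by simp only [hp.per i y]) (fun y => sq_nonneg _) x
      (ρ := 1 / 8) (by norm_num)
    have h2 := hT u p hu hp hdiv hlap
    have h3 : ∫ y in ball x (1 / 8), (p y - pb) ^ 2 ≤ CT * E ^ 2 := h1.trans h2
    calc r ^ 4 * ((r ^ 3)⁻¹ * ∫ y in ball x (1 / 8), (p y - pb) ^ 2)
        = r * ∫ y in ball x (1 / 8), (p y - pb) ^ 2 := by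
          have := hr.ne'
          field_simp
      _ ≤ _ := mul_le_mul_of_nonneg_left h3 hr.le
  have hlast : ∀ z ∈ ball (0 : V) 1, ∀ i j,
      |pd i (pd j qt) z - pd i (pd j (P (n + 1))) z| ≤ K3 * F := by
    intro z hz i j
    have hs : ContDiff ℝ ∞ (fun z => qt z - P (n + 1) z) := hqts.sub (hPs (n + 1))
    have hh : ∀ z ∈ ball (0 : V) (2 ^ (n + 1)), lap (fun z => qt z - P (n + 1) z) z = 0 := by
      intro z hz
      rw [lap_sub hqts (hPs (n + 1))]
      have h1 := hPl (n + 1) z hz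
      have h2 := hqtl z
      linarith
    have h1 := (hA (fun z => qt z - P (n + 1) z) hs 0 (2 ^ (n + 1)) (by positivity) hh z
      (hone (n + 1) (by omega) z hz) i).2 j
    rw [pd2_sub hqts (hPs (n + 1)), h7] at h1
    have h2 := int_sq_sub hqts.continuous (hPc (n + 1)) 0 (2 ^ (n + 1))
    have h3 : ∫ z in ball (0 : V) (2 ^ (n + 1)), P (n + 1) z ^ 2
        ≤ K1 * 32 ^ (n + 1) * WW g (n + 4) ^ 2 :=
      (int_sq_mono (hPc (n + 1)) 0 (pow_le_pow_right₀ (by norm_num) (by omega))).trans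
        (hPi (n + 1))
    have hW := WW_le hg0 (n + 4)
    have hW0 := WW_nonneg hg0 (n + 4)
    have hW2 : WW g (n + 4) ^ 2 ≤ (2 ^ (n + 4) * (8 * F)) ^ 2 := by
      apply pow_le_pow_left₀ hW0
      exact hW.trans (mul_le_mul_of_nonneg_left hGm (by positivity))
    have h5 : (pd i (pd j qt) z - pd i (pd j (P (n + 1))) z) ^ 2 ≤ (K3 * F) ^ 2 := by
      calc (pd i (pd j qt) z - pd i (pd j (P (n + 1))) z) ^ 2
          ≤ CH * (128 ^ (n + 1))⁻¹ *
              ∫ z in ball (0 : V) (2 ^ (n + 1)), (qt z - P (n + 1) z) ^ 2 := h1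
        _ ≤ CH * (128 ^ (n + 1))⁻¹ * (2 * (r * (CT * E ^ 2)) +
              2 * (K1 * 32 ^ (n + 1) * (2 ^ (n + 4) * (8 * F)) ^ 2)) := by
            apply mul_le_mul_of_nonneg_left _ (by positivity)
            have h6 : K1 * 32 ^ (n + 1) * WW g (n + 4) ^ 2 ≤
                K1 * 32 ^ (n + 1) * (2 ^ (n + 4) * (8 * F)) ^ 2 :=
              mul_le_mul_of_nonneg_left hW2 (by positivity)
            linarith
        _ = 2 ^ 22 * CH * CT * (E / 16 ^ (n + 4)) ^ 2 + 8192 * CH * K1 * F ^ 2 := by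
            rw [hreq]
            have e1 : (128 : ℝ) ^ (n + 1) = 128 * (2 ^ n) ^ 7 := by
              rw [pow_succ, h7 n]; ring
            have e2 : (32 : ℝ) ^ (n + 1) = 32 * (2 ^ n) ^ 5 := by
              rw [pow_succ, ← pow_mul, mul_comm n 5, pow_mul]; norm_num; ring
            have e3 : (16 : ℝ) ^ (n + 4) = 16 ^ 4 * (2 ^ n) ^ 4 := by
              rw [pow_add, ← pow_mul, mul_comm n 4, pow_mul]; norm_num; ring
            have e4 : (2 : ℝ) ^ (n + 4) = 16 * 2 ^ n := by rw [pow_add]; norm_num; ring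
            rw [e1, e2, e3, e4]
            have : (2:ℝ) ^ n ≠ 0 := by positivity
            field_simp
            ring
        _ ≤ 2 ^ 22 * CH * CT * F ^ 2 + 8192 * CH * K1 * F ^ 2 := by
            have : (E / 16 ^ (n + 4)) ^ 2 ≤ F ^ 2 := pow_le_pow_left₀ (by positivity) hFE 2
            have h6 : 2 ^ 22 * CH * CT * (E / 16 ^ (n + 4)) ^ 2 ≤ 2 ^ 22 * CH * CT * F ^ 2 :=
              mul_le_mul_of_nonneg_left this (by positivity)
            linarith
        _ = (2 ^ 22 * CH * CT + 8192 * CH * K1) * F ^ 2 := by ring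
        _ ≤ K3 ^ 2 * F ^ 2 := by
            apply mul_le_mul_of_nonneg_right _ (by positivity)
            have h6 : 0 < 2 ^ 22 * CH * CT + 8192 * CH * K1 := by positivity
            rw [hK3]
            nlinarith
        _ = _ := by ring
    exact abs_le_of_sq_le_sq h5 (by positivity)
  -- the sum of the differences
  have hsum : ∀ z ∈ ball (0 : V) 1, ∀ i j,
      |pd i (pd j (P 1)) z - pd i (pd j (P (n + 1))) z| ≤ 256 * K2 * F := by
    intro z hz i j
    have e1 : pd i (pd j (P 1)) z - pd i (pd j (P (n + 1))) z =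
        ∑ k ∈ Finset.range n, (pd i (pd j (P (k + 1))) z - pd i (pd j (P (k + 1 + 1))) z) := by
      rw [Finset.sum_range_sub' (fun k => pd i (pd j (P (k + 1))) z)]
    rw [e1]
    refine (Finset.abs_sum_le_sum_abs _ _).trans ?_
    have h1 : ∑ k ∈ Finset.range n,
        |pd i (pd j (P (k + 1))) z - pd i (pd j (P (k + 1 + 1))) z| ≤
        ∑ k ∈ Finset.range n, K2 * ((1 / 2) ^ (k + 1) * WW g (k + 1 + 4)) :=
      Finset.sum_le_sum fun k _ => hD (k + 1) (by omega) z hz i j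
    refine h1.trans ?_
    rw [← Finset.mul_sum]
    have h2 := TT_le hg0 (n + 1)
    rw [Finset.sum_range_succ'] at h2
    have h3 : 0 ≤ (1 / 2 : ℝ) ^ 0 * WW g (0 + 4) :=
      mul_nonneg (by positivity) (WW_nonneg hg0 _)
    have h4 : ∑ k ∈ Finset.range n, (1 / 2 : ℝ) ^ (k + 1) * WW g (k + 1 + 4) ≤ 32 * (8 * F) := by
      have h5 : GG g (n + 1 + 3) ≤ 8 * F := hGm
      linarith
    calc K2 * ∑ k ∈ Finset.range n, (1 / 2 : ℝ) ^ (k + 1) * WW g (k + 1 + 4)
        ≤ K2 * (32 * (8 * F)) := mul_le_mul_of_nonneg_left h4 hK2p.le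
      _ = _ := by ring
  refine ⟨P 1, hPs 1, ?_, ?_, ?_, ?_⟩
  · intro z hz
    exact hPl 1 z (ball_subset_ball (by norm_num) hz)
  · have h1 := hPi 1
    have h2 := int_sq_mono (hPc 1) 0 (show (1:ℝ) ≤ 2 ^ (1 + 1) by norm_num)
    have h3 : WW g (1 + 3) ≤ 128 * F := by
      have h4 := WW_le hg0 (1 + 3)
      have h5 := GG_mono hg0 (show 1 + 3 ≤ n + 4 by omega)
      norm_num at h4 h5 ⊢
      linarith
    have h4 : WW g (1 + 3) ^ 2 ≤ (128 * F) ^ 2 :=
      pow_le_pow_left₀ (WW_nonneg hg0 _) h3 2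
    have h5 : ∫ z in ball (0 : V) 1, P 1 z ^ 2 ≤ K1 * 32 * (128 * F) ^ 2 := by
      refine h2.trans (h1.trans ?_)
      rw [pow_one]
      exact mul_le_mul_of_nonneg_left h4 (by positivity)
    refine h5.trans ?_
    have h6 : K1 * 32 * (128 * F) ^ 2 = (K1 * 2 ^ 19) * F ^ 2 := by ring
    rw [h6, mul_pow]
    apply mul_le_mul_of_nonneg_right _ (by positivity)
    set X : ℝ := K1 * 2 ^ 19 with hX
    have h8 : 0 < X := by positivity
    set Z : ℝ := X + 1 + K3 + 256 * K2 + 64 with hZ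
    have h9 : 1 ≤ Z := by linarith
    have h10 : X ≤ Z := by linarith
    calc X ≤ Z := h10
      _ = Z * 1 := (mul_one _).symm
      _ ≤ Z * Z := mul_le_mul_of_nonneg_left h9 (by linarith)
      _ = Z ^ 2 := by ring
  · intro z hz i j
    rw [pd2_sub hqsm (hPs 1), hqs i j z, ← hqt2 i j z]
    have h1 := hlast z hz i j
    have h2 := hsum z hz i j
    have h3 : pd i (pd j qt) z - pd i (pd j (P 1)) z =
        (pd i (pd j qt) z - pd i (pd j (P (n + 1))) z) -
          (pd i (pd j (P 1)) z - pd i (pd j (P (n + 1))) z) := by ring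
    rw [h3]
    refine (abs_sub _ _).trans ?_
    refine (add_le_add h1 h2).trans ?_
    have h4 : 0 ≤ K1 * 2 ^ 19 * F := by positivity
    have h5 : (K1 * 2 ^ 19 + 1 + K3 + 256 * K2 + 64) * F =
        K1 * 2 ^ 19 * F + F + K3 * F + 256 * K2 * F + 64 * F := by ring
    rw [h5]
    linarith
  · have h1 : B2 0 2 v = 8 * g 1 := by
      simp only [hgdef, pow_one]
      ring
    rw [h1]
    have h2 := le_GG hg0 (show 1 < n + 4 by omega)
    have h3 : 8 * g 1 ≤ 64 * F := by linarith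
    refine h3.trans ?_
    have h4 : 0 ≤ (K1 * 2 ^ 19 + 1 + K3 + 256 * K2) * F := by positivity
    have h5 : (K1 * 2 ^ 19 + 1 + K3 + 256 * K2 + 64) * F =
        (K1 * 2 ^ 19 + 1 + K3 + 256 * K2) * F + 64 * F := by ring
    rw [h5]
    linarith

end Pool.Agent.W135.MD
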