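import Pool.Agent.W221.NS.Stm

/-! Project MD, part FAR: calculus under affine maps and integrals over balls. -/

set_option autoImplicit false

open MeasureTheory Set Metric
open scoped ContDiff Pointwise

namespace Pool.Agent.W135.MD

open H459R3.NS W221.NS

theorem sm_diff {f : V → ℝ} (hf : ContDiff ℝ ∞ f) : Differentiable ℝ f :=
  hf.differentiable (by norm_cast)

theorem sm_pd {f : V → ℝ} (hf : ContDiff ℝ ∞ f) (j : Fin 3) : ContDiff ℝ ∞ (pd j f) :=
  (hf.fderiv_right (m := ∞) (by norm_cast)).clm_apply contDiff_const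

theorem pd_aff {f : V → ℝ} (hf : Differentiable ℝ f) (x : V) (r : ℝ) (i : Fin 3) (z : V) :
    pd i (fun z => f (x + r • z)) z = r * pd i f (x + r • z) := by
  unfold pd
  have h1 : HasFDerivAt (fun z : V => x + r • z) (r • ContinuousLinearMap.id ℝ V) z :=
    ((hasFDerivAt_id z).const_smul r).const_add x
  have h2 : HasFDerivAt (fun z => f (x + r • z))
      ((fderiv ℝ f (x + r • z)).comp (r • ContinuousLinearMap.id ℝ V)) z :=
    ((hf (x + r • z)).hasFDerivAt).comp z h1
  rw [h2.fderiv]
  simp

theorem pd_add' {f g : V → ℝ} (hf : Differentiable ℝ f) (hg : Differentiable ℝ g) (i : Fin 3)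
    (z : V) : pd i (fun z => f z + g z) z = pd i f z + pd i g z := by
  unfold pd
  rw [fderiv_fun_add (hf z) (hg z)]
  rfl

theorem pd_sub' {f g : V → ℝ} (hf : Differentiable ℝ f) (hg : Differentiable ℝ g) (i : Fin 3)
    (z : V) : pd i (fun z => f z - g z) z = pd i f z - pd i g z := by
  unfold pd
  rw [fderiv_fun_sub (hf z) (hg z)]
  rfl

theorem pd_cmul {f : V → ℝ} (hf : Differentiable ℝ f) (c : ℝ) (i : Fin 3)
    (z : V) : pd i (fun z => c * f z) z = c * pd i f z := by
  unfold pd
  rw [fderiv_const_mul (hf z)]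
  rfl

theorem pd_const' (c : ℝ) (i : Fin 3) (z : V) : pd i (fun _ : V => c) z = 0 := by
  unfold pd
  simp

theorem pd_sum' {ι : Type*} {s : Finset ι} {f : ι → V → ℝ} (hf : ∀ i ∈ s, Differentiable ℝ (f i))
    (j : Fin 3) (x : V) : pd j (fun y => ∑ i ∈ s, f i y) x = ∑ i ∈ s, pd j (f i) x := by
  unfold pd
  have h : HasFDerivAt (fun y => ∑ i ∈ s, f i y) _ x :=
    HasFDerivAt.fun_sum fun i hi => ((hf i hi) x).hasFDerivAt
  rw [h.fderiv]
  simp

theorem pd_comm' {f : V → ℝ} (hf : ContDiff ℝ ∞ f) (i j : Fin 3) (x : V) :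
    pd i (pd j f) x = pd j (pd i f) x := by
  have h2 : ContDiff ℝ 2 f := hf.of_le (by norm_cast)
  have hs : IsSymmSndFDerivAt ℝ f x := h2.contDiffAt.isSymmSndFDerivAt (by simp)
  have hd : DifferentiableAt ℝ (fderiv ℝ f) x :=
    ((h2.fderiv_right (m := 1) (by norm_num)).differentiable one_ne_zero) x
  have e : ∀ a b : Fin 3, pd a (pd b f) x
      = fderiv ℝ (fderiv ℝ f) x (Pi.single a 1) (Pi.single b 1) := by
    intro a b
    unfold pd
    have h3 : HasFDerivAt (fun y => fderiv ℝ f y (Pi.single b 1)) _ x :=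
      hd.hasFDerivAt.clm_apply (hasFDerivAt_const (Pi.single b (1 : ℝ) : V) x)
    rw [h3.fderiv]
    simp
  rw [e, e]
  exact hs _ _

/-- second derivatives of `a * f (x + r z) + affine` -/
theorem pd2_aff {f : V → ℝ} (hf : ContDiff ℝ ∞ f) (x : V) (r : ℝ) (i j : Fin 3) (z : V) :
    pd i (pd j (fun z => f (x + r • z))) z = r ^ 2 * pd i (pd j f) (x + r • z) := by
  have h1 : pd j (fun z => f (x + r • z)) = fun z => r * pd j f (x + r • z) := by
    funext y; exact pd_aff (sm_diff hf) x r j y
  have h2 : ContDiff ℝ ∞ (fun z => pd j f (x + r • z)) :=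
    (sm_pd hf j).comp (contDiff_const.add (contDiff_const_smul r))
  rw [h1, pd_cmul (sm_diff h2), pd_aff (sm_diff (sm_pd hf j))]
  ring

theorem sm_comp {f : V → ℝ} (hf : ContDiff ℝ ∞ f) (x : V) (r : ℝ) :
    ContDiff ℝ ∞ (fun z => f (x + r • z)) :=
  hf.comp (contDiff_const.add (contDiff_const_smul r))

theorem pd2_sub {f g : V → ℝ} (hf : ContDiff ℝ ∞ f) (hg : ContDiff ℝ ∞ g) (i j : Fin 3) (z : V) :
    pd i (pd j (fun z => f z - g z)) z = pd i (pd j f) z - pd i (pd j g) z := by
  have h1 : pd j (fun z => f z - g z) = fun z => pd j f z - pd j g z := by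
    funext y; exact pd_sub' (sm_diff hf) (sm_diff hg) j y
  rw [h1, pd_sub' (sm_diff (sm_pd hf j)) (sm_diff (sm_pd hg j))]

theorem pd2_add {f g : V → ℝ} (hf : ContDiff ℝ ∞ f) (hg : ContDiff ℝ ∞ g) (i j : Fin 3) (z : V) :
    pd i (pd j (fun z => f z + g z)) z = pd i (pd j f) z + pd i (pd j g) z := by
  have h1 : pd j (fun z => f z + g z) = fun z => pd j f z + pd j g z := by
    funext y; exact pd_add' (sm_diff hf) (sm_diff hg) j y
  rw [h1, pd_add' (sm_diff (sm_pd hf j)) (sm_diff (sm_pd hg j))]

theorem pd2_cmul {f : V → ℝ} (hf : ContDiff ℝ ∞ f) (c : ℝ) (i j : Fin 3) (z : V) :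
    pd i (pd j (fun z => c * f z)) z = c * pd i (pd j f) z := by
  have h1 : pd j (fun z => c * f z) = fun z => c * pd j f z := by
    funext y; exact pd_cmul (sm_diff hf) c j y
  rw [h1, pd_cmul (sm_diff (sm_pd hf j))]

theorem lap_sub {f g : V → ℝ} (hf : ContDiff ℝ ∞ f) (hg : ContDiff ℝ ∞ g) (z : V) :
    lap (fun z => f z - g z) z = lap f z - lap g z := by
  unfold lap
  simp_rw [pd2_sub hf hg]
  rw [Finset.sum_sub_distrib]

theorem pd_proj (j : Fin 3) (i : Fin 3) (z : V) :
    pd i (fun z : V => z j) z = (Pi.single i (1 : ℝ) : V) j := by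
  unfold pd
  have h : HasFDerivAt (fun z : V => z j) (ContinuousLinearMap.proj j : V →L[ℝ] ℝ) z :=
    (ContinuousLinearMap.proj j : V →L[ℝ] ℝ).hasFDerivAt
  rw [h.fderiv]
  rfl

/-- second derivatives of a linear function vanish -/
theorem pd2_lin (l : V) (i j : Fin 3) (z : V) :
    pd i (pd j (fun z : V => ∑ k, l k * z k)) z = 0 := by
  have hs : ∀ k : Fin 3, Differentiable ℝ (fun z : V => z k) := fun k =>
    (ContinuousLinearMap.proj k : V →L[ℝ] ℝ).differentiable
  have h1 : pd j (fun z : V => ∑ k, l k * z k) =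
      fun _ => ∑ k, l k * (Pi.single j (1 : ℝ) : V) k := by
    funext y
    rw [pd_sum' (fun k _ => (hs k).const_mul _)]
    refine Finset.sum_congr rfl fun k _ => ?_
    rw [pd_cmul (hs k), pd_proj]
  rw [h1, pd_const']

theorem gsq_scale {u v : V → V} {x c : V} {r : ℝ} (hu : ContDiff ℝ ∞ u)
    (hv : ∀ z i, v z i = r * (u (x + r • z) i - c i)) (z : V) :
    gsq v z = r ^ 4 * gsq u (x + r • z) := by
  unfold gsq
  have hui : ∀ i, ContDiff ℝ ∞ (fun y => u y i) := fun i => contDiff_pi.1 hu i
  have h1 : ∀ i j, pd j (fun y => v y i) z = r ^ 2 * pd j (fun y => u y i) (x + r • z) := by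
    intro i j
    have e1 : (fun y => v y i) = fun y => r * (u (x + r • y) i - c i) := by
      funext y; exact hv y i
    rw [e1]
    have d1 : Differentiable ℝ (fun y => u (x + r • y) i) :=
      sm_diff (sm_comp (f := fun y => u y i) (hui i) x r)
    have d2 : Differentiable ℝ (fun y => u (x + r • y) i - c i) :=
      d1.sub (differentiable_const _)
    rw [pd_cmul d2, pd_sub' d1 (differentiable_const _),
      pd_const', pd_aff (f := fun y => u y i) (sm_diff (hui i)) x r j z]
    ring
  simp_rw [h1, mul_pow, ← Finset.mul_sum]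
  ring

theorem ddq_shift {u : V → V} (hu : ContDiff ℝ ∞ u)
    (hdiv : ∀ x, ∑ i, pd i (fun y => u y i) x = 0) (c : V) (z : V) :
    ddq (fun y i => u y i - c i) z = ddq u z := by
  have hui : ∀ i, ContDiff ℝ ∞ (fun y => u y i) := fun i => contDiff_pi.1 hu i
  have h1 : ∀ i j, pd i (pd j (fun y => (u y i - c i) * (u y j - c j))) z =
      pd i (pd j (fun y => u y i * u y j)) z - c i * pd i (pd j (fun y => u y j)) z
        - c j * pd i (pd j (fun y => u y i)) z := by
    intro i j
    have e1 : (fun y => (u y i - c i) * (u y j - c j)) =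
        fun y => (u y i * u y j - c i * u y j) - (c j * u y i - c i * c j) := by
      funext y; ring
    have s1 : ContDiff ℝ ∞ (fun y => u y i * u y j) := (hui i).mul (hui j)
    have s2 : ContDiff ℝ ∞ (fun y => c i * u y j) := contDiff_const.mul (hui j)
    have s3 : ContDiff ℝ ∞ (fun y => c j * u y i) := contDiff_const.mul (hui i)
    have s4 : ContDiff ℝ ∞ (fun _ : V => c i * c j) := contDiff_const
    rw [e1, pd2_sub (s1.sub s2) (s3.sub s4), pd2_sub s1 s2, pd2_sub s3 s4, pd2_cmul (hui j),
      pd2_cmul (hui i)]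
    have e2 : pd i (pd j (fun _ : V => c i * c j)) z = 0 := by
      have : pd j (fun _ : V => c i * c j) = fun _ => 0 := by funext y; exact pd_const' _ _ _
      rw [this, pd_const']
    rw [e2]
    ring
  have hz : (fun x => ∑ i, pd i (fun y => u y i) x) = fun _ => 0 := by funext x; exact hdiv x
  have h2 : ∀ i, ∑ j, pd i (pd j (fun y => u y j)) z = 0 := by
    intro i
    have := pd_sum' (s := Finset.univ) (f := fun j => pd j (fun y => u y j))
      (fun j _ => sm_diff (sm_pd (hui j) j)) i z
    rw [← this, hz, pd_const']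
  have h3 : ∀ j, ∑ i, pd i (pd j (fun y => u y i)) z = 0 := by
    intro j
    rw [← h2 j]
    exact Finset.sum_congr rfl fun i _ => pd_comm' (hui i) i j z
  unfold ddq
  simp_rw [h1]
  simp only [Finset.sum_sub_distrib]
  have e3 : ∑ i, ∑ j, c i * pd i (pd j (fun y => u y j)) z = 0 := by
    simp_rw [← Finset.mul_sum, h2]
    simp
  have e4 : ∑ i, ∑ j, c j * pd i (pd j (fun y => u y i)) z = 0 := by
    rw [Finset.sum_comm]
    simp_rw [← Finset.mul_sum, h3]
    simp
  rw [e3, e4]
  ring

theorem ddq_scale {u v : V → V} {x c : V} {r : ℝ} (hu : ContDiff ℝ ∞ u)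
    (hdiv : ∀ x, ∑ i, pd i (fun y => u y i) x = 0)
    (hv : ∀ z i, v z i = r * (u (x + r • z) i - c i)) (z : V) :
    ddq v z = r ^ 4 * ddq u (x + r • z) := by
  rw [← ddq_shift hu hdiv c]
  unfold ddq
  have hui : ∀ i, ContDiff ℝ ∞ (fun y => u y i) := fun i => contDiff_pi.1 hu i
  have h1 : ∀ i j, pd i (pd j (fun y => v y i * v y j)) z =
      r ^ 4 * pd i (pd j (fun y => (u y i - c i) * (u y j - c j))) (x + r • z) := by
    intro i j
    have e1 : (fun y => v y i * v y j) =
        fun y => r ^ 2 * (fun y => (u y i - c i) * (u y j - c j)) (x + r • y) := by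
      funext y; simp only [hv]; ring
    have s1 : ContDiff ℝ ∞ (fun y => (u y i - c i) * (u y j - c j)) :=
      ((hui i).sub contDiff_const).mul ((hui j).sub contDiff_const)
    rw [e1, pd2_cmul (sm_comp s1 x r), pd2_aff s1]
    ring
  simp_rw [h1, ← Finset.mul_sum]

theorem smooth_v {u v : V → V} {x c : V} {r : ℝ} (hu : ContDiff ℝ ∞ u)
    (hv : ∀ z i, v z i = r * (u (x + r • z) i - c i)) : ContDiff ℝ ∞ v := by
  refine contDiff_pi.2 fun i => ?_
  have e1 : (fun y => v y i) = fun y => r * (u (x + r • y) i - c i) := by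
    funext y; exact hv y i
  rw [e1]
  exact contDiff_const.mul ((sm_comp (f := fun y => u y i) (contDiff_pi.1 hu i) x r).sub
    contDiff_const)

/-- change of variables on balls -/
theorem int_ball_scale (f : V → ℝ) (x : V) {r : ℝ} (hr : 0 < r) (ρ : ℝ) :
    ∫ z in ball (0 : V) ρ, f (x + r • z) = (r ^ 3)⁻¹ * ∫ y in ball x (r * ρ), f y := by
  have h1 := Measure.setIntegral_comp_smul_of_pos (volume : Measure V) (fun y => f (x + y))
    (ball (0 : V) ρ) hr
  have hfin : Module.finrank ℝ V = 3 := by simp [V]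
  rw [hfin, smul_eq_mul] at h1
  rw [h1]
  congr 1
  have hs : r • ball (0 : V) ρ = ball (0 : V) (r * ρ) := by
    rw [_root_.smul_ball hr.ne', smul_zero, Real.norm_of_nonneg hr.le]
  rw [hs]
  have h2 : (fun y => x + y) ⁻¹' ball x (r * ρ) = ball (0 : V) (r * ρ) := by
    ext y; simp [mem_ball, dist_eq_norm]
  have h3 := (measurePreserving_add_left (volume : Measure V) x).setIntegral_preimage_emb
    (measurableEmbedding_addLeft x) f (ball x (r * ρ))
  rw [h2] at h3
  exact h3

/-- the periodic lattice -/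
theorem per_lattice {f : V → ℝ} (hp : Per f)
    (g : Submodule.span ℤ (Set.range (Pi.basisFun ℝ (Fin 3)))) (x : V) : f (g +ᵥ x) = f x := by
  obtain ⟨g, hg⟩ := g
  show f (g + x) = f x
  have hneg : ∀ (i : Fin 3) (x : V), f (x - Pi.single i 1) = f x := by
    intro i x
    have := hp i (x - Pi.single i 1)
    rw [sub_add_cancel] at this
    exact this.symm
  have hint : ∀ (n : ℤ) (i : Fin 3) (x : V), f (x + n • (Pi.single i 1 : V)) = f x := by
    intro n i
    induction n using Int.induction_on with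
    | zero => intro x; simp
    | succ k ih =>
      intro x
      rw [add_smul, one_smul, ← add_assoc, hp, ih]
    | pred k ih =>
      intro x
      rw [sub_smul, one_smul, ← add_sub_assoc, hneg, ih]
  have key : ∀ y ∈ Submodule.span ℤ (Set.range (Pi.basisFun ℝ (Fin 3))), ∀ x, f (y + x) = f x := by
    intro y hy
    induction hy using Submodule.span_induction with
    | mem y hy =>
      obtain ⟨i, rfl⟩ := hy
      intro x
      rw [add_comm, Pi.basisFun_apply]
      exact hp i x
    | zero => intro x; rw [zero_add]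
    | add y z _ _ h1 h2 => intro x; rw [add_assoc, h1, h2]
    | smul n y hy h1 =>
      intro x
      have hn : ∀ (n : ℕ) (x : V), f (n • y + x) = f x := by
        intro n
        induction n with
        | zero => intro x; simp
        | succ k ih => intro x; rw [add_smul, one_smul, add_assoc, ih, h1]
      rcases Int.eq_nat_or_neg n with ⟨k, rfl | rfl⟩
      · rw [natCast_zsmul]; exact hn k x
      · have h3 := hn k (-(k : ℤ) • y + x)
        rw [← add_assoc, neg_smul, natCast_zsmul, add_neg_cancel, zero_add] at h3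
        rw [neg_smul, natCast_zsmul]
        exact h3.symm
  exact key g hg x

theorem ball_le_cube {f : V → ℝ} (hf : Continuous f) (hp : Per f) (h0 : ∀ y, 0 ≤ f y) (x : V)
    {ρ : ℝ} (hρ : ρ ≤ 1 / 2) : ∫ y in ball x ρ, f y ≤ ∫ y in cube, f y := by
  set b := Pi.basisFun ℝ (Fin 3) with hb
  set D : Set V := ZSpan.fundamentalDomain b with hD
  have hDm : MeasurableSet D := ZSpan.fundamentalDomain_measurableSet _
  have hDmem : ∀ y : V, y ∈ D ↔ ∀ i, y i ∈ Ico (0 : ℝ) 1 := by
    intro y
    rw [hD, ZSpan.mem_fundamentalDomain]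
    simp [hb]
  have hfd1 : IsAddFundamentalDomain (Submodule.span ℤ (Set.range b)) D (volume : Measure V) :=
    ZSpan.isAddFundamentalDomain _ _
  set a : V := fun i => x i - 1 / 2 with ha
  set D' : Set V := (fun y => a + y) '' D with hD'
  have hfd2 : IsAddFundamentalDomain (Submodule.span ℤ (Set.range b)) D' (volume : Measure V) := by
    refine IsAddFundamentalDomain.mk' ?_ ?_
    · exact ((measurableEmbedding_addLeft a).measurableSet_image.2 hDm).nullMeasurableSet
    · intro y
      obtain ⟨g, hg, hg'⟩ := ZSpan.exist_unique_vadd_mem_fundamentalDomain b (-a + y)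
      refine ⟨g, ?_, ?_⟩
      · refine ⟨g +ᵥ (-a + y), hg, ?_⟩
        show a + ((g : V) + (-a + y)) = (g : V) + y
        abel
      · intro g2 hg2
        apply hg'
        obtain ⟨w, hw, hw2⟩ := hg2
        have h2 : (g2 : V) + (-a + y) = w := by
          have : a + w = (g2 : V) + y := hw2
          have h3 : w = (g2 : V) + y - a := by rw [← this]; abel
          rw [h3]; abel
        show (g2 : V) + (-a + y) ∈ D
        rw [h2]
        exact hw
  have hinv : VAddInvariantMeasure (Submodule.span ℤ (Set.range b)) V (volume : Measure V) :=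
    ⟨fun g s _ => measure_preimage_add volume (g : V) s⟩
  have e2 : ∫ z in D, f z = ∫ z in D', f z := hfd1.setIntegral_eq hfd2 (fun g x => per_lattice hp g x)
  have e3 : ∫ z in D, f z = ∫ z in cube, f z := by
    apply setIntegral_congr_set
    have h1 : D = Set.pi Set.univ fun _ : Fin 3 => Ico (0 : ℝ) 1 := by
      ext y; rw [hDmem]; simp
    rw [h1]
    have h2 := Measure.univ_pi_Ico_ae_eq_Icc (μ := fun _ : Fin 3 => (volume : Measure ℝ))
      (f := (0 : V)) (g := 1)
    rw [← volume_pi] at h2
    exact h2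
  have hD'sub : D' ⊆ Icc a (fun i => a i + 1) := by
    rintro _ ⟨y, hy, rfl⟩
    have := (hDmem y).1 hy
    constructor
    · intro i
      show a i ≤ a i + y i
      linarith [(this i).1]
    · intro i
      show a i + y i ≤ a i + 1
      linarith [(this i).2]
  have hint : IntegrableOn f D' :=
    (hf.continuousOn.integrableOn_compact (isCompact_Icc (a := a) (b := fun i => a i + 1))).mono_set
      hD'sub
  rw [← e3, e2]
  refine setIntegral_mono_set hint (Filter.Eventually.of_forall h0) (LE.le.eventuallyLE ?_)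
  intro y hy
  rw [mem_ball] at hy
  rw [dist_pi_lt_iff (dist_nonneg.trans_lt hy)] at hy
  refine ⟨-a + y, ?_, by simp⟩
  rw [hDmem]
  intro i
  have h1 := hy i
  rw [Real.dist_eq, abs_lt] at h1
  show -(a i) + y i ∈ Ico (0 : ℝ) 1
  simp only [ha]
  constructor
  · linarith [h1.1]
  · linarith [h1.2]

end Pool.Agent.W135.MD
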